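import Pool.Agent.Lib.H91G.K

/-!
# H91G: the good vertex lemma for ordered crossing tables (MP_33911d, Theorem S)

`a` a vertex, `U` vertices after `a`, `F` a plane set of arcs from vertices before `a` to `U`, no two
separated edges cross. Then some `z ∈ U` has the edge `a z` crossed by no arc of `F`.
-/

set_option autoImplicit false

namespace H91G

open H53P

section abs

variable {V : Type*}

private theorem gv_aux (U : Finset V) (R : V → V → Prop) (σ : V → ℝ)
    (hne : ∀ x ∈ U, ∃ y ∈ U, R x y)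
    (hinj : ∀ x ∈ U, ∀ y ∈ U, σ x = σ y → x = y)
    (irr : ∀ x, ¬ R x x)
    (h2 : ∀ x ∈ U, ∀ y ∈ U, R x y → R y x → False)
    (h3 : ∀ x ∈ U, ∀ y ∈ U, ∀ m ∈ U, R x y → R y m → m ≠ x →
      ((σ x < σ y ∧ σ y < σ m) ∨ (σ m < σ y ∧ σ y < σ x) ∨ (σ m < σ x ∧ σ x < σ y) ∨
        (σ y < σ x ∧ σ x < σ m)) → R x m) :
    ∀ n : ℕ, ∀ s : ℝ, (s = 1 ∨ s = -1) → ∀ x ∈ U, ∀ y ∈ U, R x y →
      (∀ l ∈ U, R x l → s * σ x < s * σ l ∧ s * σ l ≤ s * σ y) →
      (U.filter fun u => s * σ x < s * σ u ∧ s * σ u < s * σ y).card = n → False := by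
  classical
  intro n
  induction n using Nat.strong_induction_on with
  | _ n ih =>
    intro s hs x hx y hy hxy htight hcard
    have hxy' := (htight y hy hxy).1
    have hbet : ∀ m ∈ U, R y m → s * σ x < s * σ m ∧ s * σ m < s * σ y := by
      intro m hm hym
      have hmx : m ≠ x := by
        rintro rfl
        exact h2 m hx y hy hxy hym
      have hmy : m ≠ y := by
        rintro rfl
        exact irr m hym
      have nx : σ m ≠ σ x := fun e => hmx (hinj m hm x hx e)
      have ny : σ m ≠ σ y := fun e => hmy (hinj m hm y hy e)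
      by_contra hcon
      have hR : R x m := by
        apply h3 x hx y hy m hm hxy hym hmx
        rcases hs with rfl | rfl
        · simp only [one_mul] at hxy' hcon
          rcases lt_or_gt_of_ne nx with h | h
          · exact Or.inr (Or.inr (Or.inl ⟨h, hxy'⟩))
          · rcases lt_or_gt_of_ne ny with h' | h'
            · exact absurd ⟨h, h'⟩ hcon
            · exact Or.inl ⟨hxy', h'⟩
        · simp only [neg_mul, one_mul, neg_lt_neg_iff] at hxy' hcon
          rcases lt_or_gt_of_ne nx with h | h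
          · rcases lt_or_gt_of_ne ny with h' | h'
            · exact Or.inr (Or.inl ⟨h', hxy'⟩)
            · exact absurd ⟨h, h'⟩ hcon
          · exact Or.inr (Or.inr (Or.inr ⟨hxy', h⟩))
      have h4 := htight m hm hR
      refine hcon ⟨h4.1, lt_of_le_of_ne h4.2 ?_⟩
      rcases hs with rfl | rfl
      · simpa using ny
      · simpa using ny
    obtain ⟨z0, hz0, hyz0⟩ := hne y hy
    have hTne : (U.filter fun u => R y u).Nonempty := ⟨z0, by simp [hz0, hyz0]⟩
    obtain ⟨z, hz, hzmin⟩ := Finset.exists_min_image (U.filter fun u => R y u) (fun u => s * σ u) hTne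
    rw [Finset.mem_filter] at hz
    obtain ⟨hzU, hyz⟩ := hz
    have hzb := hbet z hzU hyz
    have hlt : (U.filter fun u => (-s) * σ y < (-s) * σ u ∧ (-s) * σ u < (-s) * σ z).card < n := by
      rw [← hcard]
      apply Finset.card_lt_card
      rw [Finset.ssubset_iff_of_subset]
      · exact ⟨z, by simp [hzU, hzb.1, hzb.2], by simp⟩
      · intro u hu
        simp only [Finset.mem_filter, neg_mul, neg_lt_neg_iff] at hu ⊢
        exact ⟨hu.1, lt_trans hzb.1 hu.2.2, hu.2.1⟩
    refine ih _ hlt (-s) ?_ y hy z hzU hyz ?_ rfl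
    · rcases hs with rfl | rfl
      · exact Or.inr rfl
      · exact Or.inl (by norm_num)
    · intro l hl hyl
      simp only [neg_mul, neg_lt_neg_iff, neg_le_neg_iff]
      exact ⟨(hbet l hl hyl).2, hzmin l (by simp [hl, hyl])⟩

/-- the descent -/
theorem gv_descent (U : Finset V) (hU : U.Nonempty) (R : V → V → Prop) (σ : V → ℝ)
    (hne : ∀ x ∈ U, ∃ y ∈ U, R x y)
    (hinj : ∀ x ∈ U, ∀ y ∈ U, σ x = σ y → x = y)
    (irr : ∀ x, ¬ R x x)
    (h2 : ∀ x ∈ U, ∀ y ∈ U, R x y → R y x → False)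
    (h3 : ∀ x ∈ U, ∀ y ∈ U, ∀ m ∈ U, R x y → R y m → m ≠ x →
      ((σ x < σ y ∧ σ y < σ m) ∨ (σ m < σ y ∧ σ y < σ x) ∨ (σ m < σ x ∧ σ x < σ y) ∨
        (σ y < σ x ∧ σ x < σ m)) → R x m) : False := by
  classical
  obtain ⟨x, hx, hxmin⟩ := Finset.exists_min_image U σ hU
  obtain ⟨z0, hz0, hxz0⟩ := hne x hx
  have hTne : (U.filter fun u => R x u).Nonempty := ⟨z0, by simp [hz0, hxz0]⟩
  obtain ⟨y, hy, hymax⟩ := Finset.exists_max_image (U.filter fun u => R x u) σ hTne
  rw [Finset.mem_filter] at hy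
  obtain ⟨hyU, hxy⟩ := hy
  refine gv_aux U R σ hne hinj irr h2 h3 _ 1 (Or.inl rfl) x hx y hyU hxy ?_ rfl
  intro l hl hxl
  rw [one_mul, one_mul, one_mul]
  refine ⟨lt_of_le_of_ne (hxmin l hl) ?_, hymax l (by simp [hl, hxl])⟩
  intro e
  have := hinj x hx l hl e
  subst this
  exact irr x hxl

end abs

variable {V : Type*} [LinearOrder V] (T : Table V)

/-- edges on the two sides of `a` do not cross -/
private theorem gv_zz (hS : ∀ a b c d : V, a < b → b < c → c < d → T.X a b c d = false) {a p q r s : V}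
    (hp : p ≤ a) (hq : q ≤ a) (hr : a ≤ r) (hs : a ≤ s) : T.X p q r s = false := by
  by_contra hcon
  have hX : T.X p q r s = true := by simpa using hcon
  obtain ⟨hpq, hrs, hpr, hps, hqr, hqs⟩ := T.ne p q r s hX
  have lpr : p < r := lt_of_le_of_ne (hp.trans hr) hpr
  have lps : p < s := lt_of_le_of_ne (hp.trans hs) hps
  have lqr : q < r := lt_of_le_of_ne (hq.trans hr) hqr
  have lqs : q < s := lt_of_le_of_ne (hq.trans hs) hqs
  rcases lt_or_gt_of_ne hpq with h1 | h1 <;> rcases lt_or_gt_of_ne hrs with h2 | h2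
  · rw [hS p q r s h1 lqr h2] at hX
    exact Bool.noConfusion hX
  · rw [h91g_symm3 T, hS p q s r h1 lqs h2] at hX
    exact Bool.noConfusion hX
  · rw [T.symm1, hS q p r s h1 lpr h2] at hX
    exact Bool.noConfusion hX
  · rw [T.symm1, h91g_symm3 T, hS q p s r h1 lps h2] at hX
    exact Bool.noConfusion hX

/-- **Good vertex lemma.** -/
theorem good_vertex (hS : ∀ a b c d : V, a < b → b < c → c < d → T.X a b c d = false)
    {a : V} {U : Finset V} (hU : U.Nonempty) (hUa : ∀ u ∈ U, a < u) {F : Finset (V × V)}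
    (hF : ∀ e ∈ F, e.1 < a ∧ e.2 ∈ U)
    (hpl : ∀ e ∈ F, ∀ f ∈ F, T.X e.1 e.2 f.1 f.2 = false) :
    ∃ z ∈ U, ∀ e ∈ F, T.X a z e.1 e.2 = false := by
  classical
  by_contra hcon
  push Not at hcon
  have hcr : ∀ z ∈ U, ∃ e ∈ F, T.X a z e.1 e.2 = true := by
    intro z hz
    obtain ⟨e, he, h⟩ := hcon z hz
    exact ⟨e, he, by simpa using h⟩
  obtain ⟨u0, hu0⟩ := hU
  obtain ⟨e0, he0, -⟩ := hcr u0 hu0
  set w : V := e0.1 with hw
  have hwa : w < a := (hF e0 he0).1
  have haw : a ≠ w := ne_of_gt hwa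
  obtain ⟨ρ, h0, hinj, hrot⟩ := T.rot a w haw
  have zz : ∀ {p q r s : V}, p ≤ a → q ≤ a → a ≤ r → a ≤ s → T.X p q r s = false :=
    fun hp hq hr hs => gv_zz T hS hp hq hr hs
  -- the position of a tail
  have hk : ∀ k, k < a → ∀ x ∈ U, ∀ y ∈ U, x ≠ y → H53P.btw (ρ x) (ρ y) (ρ k) = false := by
    intro k hka x hx y hy hxy
    have hax := hUa x hx
    have hay := hUa y hy
    have lx := h0 x (ne_of_gt hax) (ne_of_gt (hwa.trans hax))
    have ly := h0 y (ne_of_gt hay) (ne_of_gt (hwa.trans hay))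
    by_cases hkw : k = w
    · rw [hkw]
      unfold H53P.btw
      have c1 : ¬ (ρ x < ρ w ∧ ρ w < ρ y) := fun h => absurd h.1 (not_lt.2 lx.le)
      have c2 : ¬ (ρ y < ρ w ∧ ρ w < ρ x) := fun h => absurd h.1 (not_lt.2 ly.le)
      simp [c1, c2]
    · have lk := h0 k (ne_of_lt hka) hkw
      have h := hrot k w x y (ne_of_lt hka) (ne_of_lt hwa) (ne_of_gt hax) (ne_of_gt hay) hkw
        (ne_of_lt (hka.trans hax)) (ne_of_lt (hka.trans hay)) (ne_of_lt (hwa.trans hax))
        (ne_of_lt (hwa.trans hay)) hxy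
      have e1 : T.X a k x y = false := zz le_rfl hka.le hax.le hay.le
      have e2 : T.X a w x y = false := zz le_rfl hwa.le hax.le hay.le
      have e3 : T.X k w a x = false := zz hka.le hwa.le le_rfl hax.le
      have e4 : T.X k w a y = false := zz hka.le hwa.le le_rfl hay.le
      have e5 : T.X k w x y = false := zz hka.le hwa.le hax.le hay.le
      unfold altX at h
      rw [e1, e2, e3, e4, e5] at h
      have key : ∀ t : V, ρ w < ρ t → H53P.btw (ρ k) (ρ w) (ρ t) = decide (ρ t < ρ k) := by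
        intro t ht
        unfold H53P.btw
        have c : ¬ (ρ k < ρ t ∧ ρ t < ρ w) := fun hh => absurd hh.2 (not_lt.2 ht.le)
        simp [c, ht]
      rw [key x lx, key y ly] at h
      have hiff : (ρ x < ρ k) ↔ (ρ y < ρ k) := by
        by_cases c1 : ρ x < ρ k <;> by_cases c2 : ρ y < ρ k <;> simp [c1, c2] at h ⊢
      unfold H53P.btw
      have c1 : ¬ (ρ x < ρ k ∧ ρ k < ρ y) := fun hh => absurd (hiff.1 hh.1) (not_lt.2 hh.2.le)
      have c2 : ¬ (ρ y < ρ k ∧ ρ k < ρ x) := fun hh => absurd (hiff.2 hh.1) (not_lt.2 hh.2.le)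
      simp [c1, c2]
  -- alternation with a tail
  have halt : ∀ k, k < a → ∀ x ∈ U, ∀ y ∈ U, ∀ z ∈ U,
      ((ρ x < ρ z ∧ ρ z < ρ y) ∨ (ρ y < ρ z ∧ ρ z < ρ x)) → altX T.X a x y z k = true := by
    intro k hka x hx y hy z hz hb
    have hax := hUa x hx
    have hay := hUa y hy
    have haz := hUa z hz
    have hxy : x ≠ y := by rintro rfl; rcases hb with h | h <;> exact absurd (h.1.trans h.2) (lt_irrefl _)
    have hxz : x ≠ z := by rintro rfl; rcases hb with h | h <;> simp at h
    have hyz : y ≠ z := by rintro rfl; rcases hb with h | h <;> simp at h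
    rw [hrot x y z k (ne_of_gt hax) (ne_of_gt hay) (ne_of_gt haz) (ne_of_lt hka) hxy hxz
      (ne_of_gt (hka.trans hax)) hyz (ne_of_gt (hka.trans hay)) (ne_of_gt (hka.trans haz)),
      hk k hka x hx y hy hxy]
    unfold H53P.btw
    rcases hb with h | h <;> simp [h]
  -- distinctness
  have hnd : ∀ k, k < a → ∀ x ∈ U, ∀ y ∈ U, ∀ z ∈ U, x ≠ y → x ≠ z → y ≠ z →
      [a, k, x, y, z].Nodup := by
    intro k hka x hx y hy z hz hxy hxz hyz
    have hax := hUa x hx
    have hay := hUa y hy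
    have haz := hUa z hz
    simp [ne_of_gt hka, ne_of_lt hax, ne_of_lt hay, ne_of_lt haz, ne_of_lt (hka.trans hax),
      ne_of_lt (hka.trans hay), ne_of_lt (hka.trans haz), hxy, hxz, hyz]
  -- no cycle of length two
  have hno : ∀ k l q m : V, (k, l) ∈ F → (q, m) ∈ F → T.X a l q m = true → T.X a m k l = true → False := by
    intro k l q m hkl hqm h1 h2
    obtain ⟨hka, hlU⟩ := hF _ hkl
    obtain ⟨hqa, hmU⟩ := hF _ hqm
    have hka : k < a := hka
    have hqa : q < a := hqa
    have hlU : l ∈ U := hlU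
    have hmU : m ∈ U := hmU
    have hlm : l ≠ m := (T.ne _ _ _ _ h1).2.2.2.2.2
    have hal := hUa l hlU
    have ham := hUa m hmU
    by_cases hkq : k = q
    · subst hkq
      have e1 : T.X a l m k = true := by rw [← h91g_symm3 T a l k m]; exact h1
      have e2 := T.one a l m k e1
      rw [h91g_symm3 T a m l k, h2] at e2
      exact Bool.noConfusion e2
    · have hN : [a, k, q, l, m].Nodup := by
        simp [ne_of_gt hka, ne_of_gt hqa, ne_of_lt hal, ne_of_lt ham, hkq, ne_of_lt (hka.trans hal),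
          ne_of_lt (hka.trans ham), ne_of_lt (hqa.trans hal), ne_of_lt (hqa.trans ham), hlm]
      have := f1 T hN (zz le_rfl hka.le hal.le ham.le) (zz le_rfl hqa.le hal.le ham.le)
        (zz hka.le hqa.le le_rfl hal.le) (zz hka.le hqa.le le_rfl ham.le)
        (zz hka.le hqa.le hal.le ham.le) h1 h2
      have hp := hpl _ hkl _ hqm
      simp only at hp
      rw [this] at hp
      exact Bool.noConfusion hp
  -- the relation
  refine gv_descent U ⟨u0, hu0⟩ (fun x y => ∃ k, (k, y) ∈ F ∧ T.X a x k y = true) ρ ?_ ?_ ?_ ?_ ?_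
  · intro x hx
    obtain ⟨e, he, h⟩ := hcr x hx
    exact ⟨e.2, (hF e he).2, e.1, he, h⟩
  · intro x hx y hy e
    exact hinj x y (ne_of_gt (hUa x hx)) (ne_of_gt (hUa y hy)) e
  · rintro x ⟨k, -, h⟩
    exact (T.ne _ _ _ _ h).2.2.2.2.2 rfl
  · rintro x - y - ⟨k, hkF, h1⟩ ⟨q, hqF, h2⟩
    exact hno q x k y hqF hkF h1 h2
  · rintro x hx y hy m hm ⟨k, hkF, h1⟩ ⟨q, hqF, h2⟩ hmx hord
    refine ⟨q, hqF, ?_⟩
    have hka : k < a := (hF _ hkF).1
    have hqa : q < a := (hF _ hqF).1
    have hax := hUa x hx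
    have hay := hUa y hy
    have ham := hUa m hm
    have hxy : x ≠ y := (T.ne _ _ _ _ h1).2.2.2.2.2
    have hym : y ≠ m := (T.ne _ _ _ _ h2).2.2.2.2.2
    have hxm : x ≠ m := Ne.symm hmx
    by_contra hcon2
    have h3 : T.X a x q m = false := by simpa using hcon2
    have Nk := hnd k hka x hx y hy m hm hxy hxm hym
    have Nq := hnd q hqa x hx y hy m hm hxy hxm hym
    have zk1 : T.X a k x y = false := zz le_rfl hka.le hax.le hay.le
    have zk2 : T.X a k x m = false := zz le_rfl hka.le hax.le ham.le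
    have zk3 : T.X a k y m = false := zz le_rfl hka.le hay.le ham.le
    have zq1 : T.X a q x y = false := zz le_rfl hqa.le hax.le hay.le
    have zq2 : T.X a q x m = false := zz le_rfl hqa.le hax.le ham.le
    have zq3 : T.X a q y m = false := zz le_rfl hqa.le hay.le ham.le
    have hcase : ((ρ x < ρ y ∧ ρ y < ρ m) ∨ (ρ m < ρ y ∧ ρ y < ρ x)) ∨
        ((ρ m < ρ x ∧ ρ x < ρ y) ∨ (ρ y < ρ x ∧ ρ x < ρ m)) := by
      rcases hord with h | h | h | h
      · exact Or.inl (Or.inl h)
      · exact Or.inl (Or.inr h)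
      · exact Or.inr (Or.inl h)
      · exact Or.inr (Or.inr h)
    rcases hcase with hb | hb
    · obtain ⟨c1', c2'⟩ := b1 T Nq zq1 zq2 zq3 h2 h3 (halt q hqa x hx m hm y hy hb)
      have c3 := a1 T Nk zk1 zk2 zk3 h1 c1' (halt k hka x hx m hm y hy hb)
      by_cases hkq : k = q
      · subst hkq
        have e1 : T.X k y m x = true := by rw [← h91g_symm3 T k y x m]; exact c3
        have e2 := T.one k y m x e1
        rw [h91g_symm3 T k m y x, c2'] at e2
        exact Bool.noConfusion e2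
      · have hN : [k, q, x, y, m].Nodup := by
          simp [hkq, ne_of_lt (hka.trans hax), ne_of_lt (hka.trans hay), ne_of_lt (hka.trans ham),
            ne_of_lt (hqa.trans hax), ne_of_lt (hqa.trans hay), ne_of_lt (hqa.trans ham), hxy, hxm, hym]
        have c4 := c1 T hN (zz hka.le hqa.le hax.le hay.le) (zz hka.le hqa.le hax.le ham.le)
          (zz hka.le hqa.le hay.le ham.le) c3 c2'
        have hp := hpl _ hkF _ hqF
        simp only at hp
        rw [c4] at hp
        exact Bool.noConfusion hp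
    · have n1 : T.X a m k y = false := by
        by_contra hh
        exact hno k y q m hkF hqF h2 (by simpa using hh)
      have d1 := a2 T Nk zk1 zk2 zk3 h1 n1 (halt k hka m hm y hy x hx hb)
      have d2 := b2 T Nq zq1 zq2 zq3 h2 h3 (halt q hqa m hm y hy x hx hb)
      rw [d1] at d2
      exact Bool.noConfusion d2

end H91G
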