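import Pool.Agent.Lib.H53P.C0

/-!
# H91G: facts on five points (generated brute force) for the good vertex lemma (MP_33911d)
-/

set_option autoImplicit false

namespace H91G

open H53P

variable {V : Type*} (T : Table V)

theorem h91g_symm3 (a b c d : V) : T.X a b c d = T.X a b d c := by
  rw [T.symm2 a b c d, T.symm1 c d a b, T.symm2 d c a b]

theorem h91g_sep5 {a b c x y : V} (hnd : [a, b, c, x, y].Nodup) (h1 : T.X x a b c = false)
    (h2 : T.X y b c a = false) (h3 : crTX T.X a b c x y = true) : T.X x a y b = false := by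
  have hz : ∀ p q r s : V, (p = r ∨ p = s ∨ q = r ∨ q = s) → T.X p q r s = false := by
    intro p q r s h
    by_contra hcon
    have := T.ne p q r s (by simpa using hcon)
    tauto
  simp only [List.nodup_cons, List.mem_cons, List.not_mem_nil, not_or, or_false,
    List.nodup_nil, and_true, not_false_eq_true] at hnd
  obtain ⟨⟨hab, hac, hax, hay⟩, ⟨hbc, hbx, hby⟩, ⟨hcx, hcy⟩, hxy⟩ := hnd
  exact T.sep a b c hab hbc (Ne.symm hac) x y a b (Ne.symm hax) (Ne.symm hbx) (Ne.symm hcx)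
    (Ne.symm hay) (Ne.symm hby) (Ne.symm hcy) (hz _ _ _ _ (by tauto)) h1
    (hz _ _ _ _ (by tauto)) (hz _ _ _ _ (by tauto)) (hz _ _ _ _ (by tauto)) h2 h3

/-- exactly one of the three pairings of four edges at `u` alternates -/
theorem h91g_rot1 {u a b c d : V} (hnd : [u, a, b, c, d].Nodup) :
    ((altX T.X u a b c d && !altX T.X u a c b d && !altX T.X u a d b c) ||
      (!altX T.X u a b c d && altX T.X u a c b d && !altX T.X u a d b c) ||
      (!altX T.X u a b c d && !altX T.X u a c b d && altX T.X u a d b c)) = true := by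
  simp only [List.nodup_cons, List.mem_cons, List.not_mem_nil, not_or, or_false,
    List.nodup_nil, and_true, not_false_eq_true] at hnd
  obtain ⟨⟨hua, hub, huc, hud⟩, ⟨hab, hac, had⟩, ⟨hbc, hbd⟩, hcd⟩ := hnd
  have hau := Ne.symm hua
  have hbu := Ne.symm hub
  have hcu := Ne.symm huc
  have hdu := Ne.symm hud
  have hba := Ne.symm hab
  have hca := Ne.symm hac
  have hda := Ne.symm had
  have hcb := Ne.symm hbc
  have hdb := Ne.symm hbd
  have hdc := Ne.symm hcd
  obtain ⟨ρ, h0, hinj, h⟩ := T.rot u a hua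
  have ea := h a b c d hau hbu hcu hdu hab hac had hbc hbd hcd
  have eb := h a c b d hau hcu hbu hdu hac hab had hcb hcd hbd
  have ec := h a d b c hau hdu hbu hcu had hab hac hdb hdc hbc
  rw [ea, eb, ec]
  have lb := h0 b hbu hba
  have lc := h0 c hcu hca
  have ld := h0 d hdu hda
  have nbc : ρ b ≠ ρ c := fun e => hbc (hinj b c hbu hcu e)
  have nbd : ρ b ≠ ρ d := fun e => hbd (hinj b d hbu hdu e)
  have ncd : ρ c ≠ ρ d := fun e => hcd (hinj c d hcu hdu e)
  have key : ∀ x y : V, ρ a < ρ x → ρ a < ρ y →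
      H53P.btw (ρ a) (ρ x) (ρ y) = decide (ρ y < ρ x) := by
    intro x y hx hy
    unfold H53P.btw
    have h2 : ¬ (ρ x < ρ y ∧ ρ y < ρ a) := fun hh => absurd hh.2 (not_lt.2 hy.le)
    simp [h2, hy]
  rw [key b c lb lc, key b d lb ld, key c b lc lb, key c d lc ld, key d b ld lb, key d c ld lc]
  rcases lt_or_gt_of_ne nbc with h1 | h1 <;> rcases lt_or_gt_of_ne nbd with h2 | h2 <;>
    rcases lt_or_gt_of_ne ncd with h3 | h3 <;>
    first
    | (exact absurd (lt_trans h1 h3) (not_lt.2 h2.le))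
    | (exact absurd (lt_trans h2 h3) (not_lt.2 h1.le))
    | (exact absurd (lt_trans h3 h2) (not_lt.2 h1.le))
    | (exact absurd (lt_trans h3 h1) (not_lt.2 h2.le))
    | simp [h1, h2, h3, not_lt.2 h1.le, not_lt.2 h2.le, not_lt.2 h3.le]

set_option synthInstance.maxSize 100000 in
private theorem brute_f1 :
    ∀ x6 x7 x8 : Bool,
    x6 = false →
    x8 = true →
    (x6 = true → x7 = false) →
    (x6 = true → x8 = false) →
    (x7 = true → x8 = false) →
    ∀ x9 x10 x11 : Bool,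
    x9 = false →
    x10 = true →
    (x9 = true → x10 = false) →
    (x9 = true → x11 = false) →
    (x10 = true → x11 = false) →
    ∀ x0 x1 x2 : Bool,
    x2 = false →
    (x0 = true → x1 = false) →
    (x0 = true → x2 = false) →
    (x1 = true → x2 = false) →
    ∀ x3 x4 x5 : Bool,
    x5 = false →
    (x3 = true → x4 = false) →
    (x3 = true → x5 = false) →
    (x4 = true → x5 = false) →
    ∀ x12 x13 x14 : Bool,
    x12 = false →
    (x12 = true → x13 = false) →
    (x12 = true → x14 = false) →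
    (x13 = true → x14 = false) →
    ((((((x9 ^^ x12) ^^ x0) ^^ x3) ^^ x6) && !((((x4 ^^ x14) ^^ x2) ^^ x10) ^^ x7) && !((((x1 ^^ x13) ^^ x5) ^^ x11) ^^ x8)) || (!((((x9 ^^ x12) ^^ x0) ^^ x3) ^^ x6) && ((((x4 ^^ x14) ^^ x2) ^^ x10) ^^ x7) && !((((x1 ^^ x13) ^^ x5) ^^ x11) ^^ x8)) || (!((((x9 ^^ x12) ^^ x0) ^^ x3) ^^ x6) && !((((x4 ^^ x14) ^^ x2) ^^ x10) ^^ x7) && ((((x1 ^^ x13) ^^ x5) ^^ x11) ^^ x8))) = true →
    ((((((x10 ^^ x13) ^^ x0) ^^ x6) ^^ x3) && !((((x7 ^^ x14) ^^ x1) ^^ x9) ^^ x4) && !((((x2 ^^ x12) ^^ x8) ^^ x11) ^^ x5)) || (!((((x10 ^^ x13) ^^ x0) ^^ x6) ^^ x3) && ((((x7 ^^ x14) ^^ x1) ^^ x9) ^^ x4) && !((((x2 ^^ x12) ^^ x8) ^^ x11) ^^ x5)) || (!((((x10 ^^ x13) ^^ x0) ^^ x6) ^^ x3) && !((((x7 ^^ x14) ^^ x1) ^^ x9) ^^ x4) && ((((x2 ^^ x12) ^^ x8) ^^ x11) ^^ x5))) = true →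
    (x0 = false → x13 = false → ((x5 ^^ x11) ^^ x8) = true → x3 = false) →
    x13 = true := by
  decide +kernel

theorem f1 {a k q l m : V} (hnd : [a, k, q, l, m].Nodup)
    (s0 : T.X a k l m = false)
    (s1 : T.X a q l m = false)
    (s2 : T.X k q a l = false)
    (s3 : T.X k q a m = false)
    (s4 : T.X k q l m = false)
    (h0 : T.X a l q m = true)
    (h1 : T.X a m k l = true) :
    T.X k l q m = true := by
  have hnd' := hnd
  simp only [List.nodup_cons, List.mem_cons, List.not_mem_nil, not_or, or_false,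
    List.nodup_nil, and_true, not_false_eq_true] at hnd'
  obtain ⟨⟨nak, naq, nal, nam⟩, ⟨nkq, nkl, nkm⟩, ⟨nql, nqm⟩, nlm⟩ := hnd'
  have nka := Ne.symm nak
  have nqa := Ne.symm naq
  have nla := Ne.symm nal
  have nma := Ne.symm nam
  have nqk := Ne.symm nkq
  have nlk := Ne.symm nkl
  have nmk := Ne.symm nkm
  have nlq := Ne.symm nql
  have nmq := Ne.symm nqm
  have nml := Ne.symm nlm
  have g1 := s0
  have g2 := h1
  have g3 := T.one a k l m
  have g4 := T.one a k m l
  have g5 := T.one a l m k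
  have g6 := s1
  have g7 := h0
  have g8 := T.one a q l m
  have g9 := T.one a q m l
  have g10 := T.one a l m q
  have g11 := s2
  have g12 := T.one a k q l
  have g13 := T.one a k l q
  have g14 := T.one a q l k
  have g15 := s3
  have g16 := T.one a k q m
  have g17 := T.one a k m q
  have g18 := T.one a q m k
  have g19 := s4
  have g20 := T.one k q l m
  have g21 := T.one k q m l
  have g22 := T.one k l m q
  have g23 := h91g_rot1 T (u := q) (a := a) (b := k) (c := l) (d := m) (by simp [*])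
  have g24 := h91g_rot1 T (u := l) (a := a) (b := k) (c := q) (d := m) (by simp [*])
  have g25 := h91g_sep5 T (a := k) (b := q) (c := l) (x := a) (y := m) (by simp [*])
  have e0 : T.X a k l q = T.X a k q l := (h91g_symm3 T a k l q)
  have e1 : T.X a k m l = T.X a k l m := (h91g_symm3 T a k m l)
  have e2 : T.X a k m q = T.X a k q m := (h91g_symm3 T a k m q)
  have e3 : T.X a l m k = T.X a l k m := (h91g_symm3 T a l m k)
  have e4 : T.X a l m q = T.X a l q m := (h91g_symm3 T a l m q)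
  have e5 : T.X a l q k = T.X a l k q := (h91g_symm3 T a l q k)
  have e6 : T.X a m l k = T.X a m k l := (h91g_symm3 T a m l k)
  have e7 : T.X a m l q = T.X a m q l := (h91g_symm3 T a m l q)
  have e8 : T.X a m q k = T.X a m k q := (h91g_symm3 T a m q k)
  have e9 : T.X a q l k = T.X a q k l := (h91g_symm3 T a q l k)
  have e10 : T.X a q m k = T.X a q k m := (h91g_symm3 T a q m k)
  have e11 : T.X a q m l = T.X a q l m := (h91g_symm3 T a q m l)
  have e12 : T.X k l m q = T.X k l q m := (h91g_symm3 T k l m q)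
  have e13 : T.X k m l q = T.X k m q l := (h91g_symm3 T k m l q)
  have e14 : T.X k q a l = T.X a l k q := (T.symm2 k q a l)
  have e15 : T.X k q a m = T.X a m k q := (T.symm2 k q a m)
  have e16 : T.X k q m l = T.X k q l m := (h91g_symm3 T k q m l)
  have e17 : T.X l a k m = T.X a l k m := (T.symm1 l a k m)
  have e18 : T.X l a k q = T.X a l k q := (T.symm1 l a k q)
  have e19 : T.X l a q m = T.X a l q m := (T.symm1 l a q m)
  have e20 : T.X l k q m = T.X k l q m := (T.symm1 l k q m)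
  have e21 : T.X l m k q = T.X k q l m := (T.symm2 l m k q)
  have e22 : T.X l q k m = T.X k m q l := ((T.symm1 l q k m).trans (T.symm2 q l k m))
  have e23 : T.X m q l k = T.X k l q m := (((T.symm1 m q l k).trans (h91g_symm3 T q m l k)).trans (T.symm2 q m k l))
  have e24 : T.X q a k l = T.X a q k l := (T.symm1 q a k l)
  have e25 : T.X q a k m = T.X a q k m := (T.symm1 q a k m)
  have e26 : T.X q a l m = T.X a q l m := (T.symm1 q a l m)
  have e27 : T.X q k l m = T.X k q l m := (T.symm1 q k l m)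
  have e28 : T.X q l k m = T.X k m q l := (T.symm2 q l k m)
  have e29 : T.X q m k l = T.X k l q m := (T.symm2 q m k l)
  simp only [altX, crTX] at g1 g2 g3 g4 g5 g6 g7 g8 g9 g10 g11 g12 g13 g14 g15 g16 g17 g18 g19 g20 g21 g22 g23 g24 g25
  simp only [e0, e1, e2, e3, e4, e5, e6, e7, e8, e9, e10, e11, e12, e13, e14, e15, e16, e17, e18, e19, e20, e21, e22, e23, e24, e25, e26, e27, e28, e29] at g1 g2 g3 g4 g5 g6 g7 g8 g9 g10 g11 g12 g13 g14 g15 g16 g17 g18 g19 g20 g21 g22 g23 g24 g25 ⊢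
  exact brute_f1 _ _ _ g1 g2 g3 g4 g5 _ _ _ g6 g7 g8 g9 g10 _ _ _ g11 g12 g13 g14 _ _ _ g15 g16 g17 g18 _ _ _ g19 g20 g21 g22 g23 g24 g25

set_option synthInstance.maxSize 100000 in
private theorem brute_b1 :
    ∀ x3 x4 x5 : Bool,
    x3 = false →
    x4 = false →
    (x3 = true → x4 = false) →
    (x3 = true → x5 = false) →
    (x4 = true → x5 = false) →
    ∀ x6 x7 x8 : Bool,
    x6 = false →
    x7 = true →
    (x6 = true → x7 = false) →
    (x6 = true → x8 = false) →
    (x7 = true → x8 = false) →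
    ∀ x0 x1 x2 : Bool,
    x0 = false →
    (x0 = true → x1 = false) →
    (x0 = true → x2 = false) →
    (x1 = true → x2 = false) →
    ∀ x9 x10 x11 : Bool,
    (x9 = true → x10 = false) →
    (x9 = true → x11 = false) →
    (x10 = true → x11 = false) →
    ∀ x12 x13 x14 : Bool,
    (x12 = true → x13 = false) →
    (x12 = true → x14 = false) →
    (x13 = true → x14 = false) →
    ((((x1 ^^ x8) ^^ x10) ^^ x3) ^^ x13) = true →
    ((((((x6 ^^ x12) ^^ x1) ^^ x4) ^^ x9) && !((((x3 ^^ x13) ^^ x2) ^^ x7) ^^ x10) && !((((x0 ^^ x14) ^^ x5) ^^ x8) ^^ x11)) || (!((((x6 ^^ x12) ^^ x1) ^^ x4) ^^ x9) && ((((x3 ^^ x13) ^^ x2) ^^ x7) ^^ x10) && !((((x0 ^^ x14) ^^ x5) ^^ x8) ^^ x11)) || (!((((x6 ^^ x12) ^^ x1) ^^ x4) ^^ x9) && !((((x3 ^^ x13) ^^ x2) ^^ x7) ^^ x10) && ((((x0 ^^ x14) ^^ x5) ^^ x8) ^^ x11))) = true →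
    ((((((x10 ^^ x13) ^^ x0) ^^ x6) ^^ x3) && !((((x7 ^^ x14) ^^ x1) ^^ x9) ^^ x4) && !((((x2 ^^ x12) ^^ x8) ^^ x11) ^^ x5)) || (!((((x10 ^^ x13) ^^ x0) ^^ x6) ^^ x3) && ((((x7 ^^ x14) ^^ x1) ^^ x9) ^^ x4) && !((((x2 ^^ x12) ^^ x8) ^^ x11) ^^ x5)) || (!((((x10 ^^ x13) ^^ x0) ^^ x6) ^^ x3) && !((((x7 ^^ x14) ^^ x1) ^^ x9) ^^ x4) && ((((x2 ^^ x12) ^^ x8) ^^ x11) ^^ x5))) = true →
    (x2 = false → x4 = false → ((x6 ^^ x12) ^^ x9) = true → x7 = false) →
    x10 = true ∧ x14 = true := by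
  decide +kernel

theorem b1 {a k b l m : V} (hnd : [a, k, b, l, m].Nodup)
    (s0 : T.X a k b l = false)
    (s1 : T.X a k b m = false)
    (s2 : T.X a k l m = false)
    (h0 : T.X a l k m = true)
    (h1 : T.X a b k m = false)
    (r0 : altX T.X a b m l k = true) :
    T.X a l b m = true ∧ T.X k m b l = true := by
  have hnd' := hnd
  simp only [List.nodup_cons, List.mem_cons, List.not_mem_nil, not_or, or_false,
    List.nodup_nil, and_true, not_false_eq_true] at hnd'
  obtain ⟨⟨nak, nab, nal, nam⟩, ⟨nkb, nkl, nkm⟩, ⟨nbl, nbm⟩, nlm⟩ := hnd'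
  have nka := Ne.symm nak
  have nba := Ne.symm nab
  have nla := Ne.symm nal
  have nma := Ne.symm nam
  have nbk := Ne.symm nkb
  have nlk := Ne.symm nkl
  have nmk := Ne.symm nkm
  have nlb := Ne.symm nbl
  have nmb := Ne.symm nbm
  have nml := Ne.symm nlm
  have g1 := s1
  have g2 := h1
  have g3 := T.one a k b m
  have g4 := T.one a k m b
  have g5 := T.one a b m k
  have g6 := s2
  have g7 := h0
  have g8 := T.one a k l m
  have g9 := T.one a k m l
  have g10 := T.one a l m k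
  have g11 := s0
  have g12 := T.one a k b l
  have g13 := T.one a k l b
  have g14 := T.one a b l k
  have g15 := T.one a b l m
  have g16 := T.one a b m l
  have g17 := T.one a l m b
  have g18 := T.one k b l m
  have g19 := T.one k b m l
  have g20 := T.one k l m b
  have g21 := r0
  have g22 := h91g_rot1 T (u := k) (a := a) (b := b) (c := l) (d := m) (by simp [*])
  have g23 := h91g_rot1 T (u := l) (a := a) (b := k) (c := b) (d := m) (by simp [*])
  have g24 := h91g_sep5 T (a := a) (b := k) (c := b) (x := l) (y := m) (by simp [*])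
  have e0 : T.X a b l k = T.X a b k l := (h91g_symm3 T a b l k)
  have e1 : T.X a b m k = T.X a b k m := (h91g_symm3 T a b m k)
  have e2 : T.X a b m l = T.X a b l m := (h91g_symm3 T a b m l)
  have e3 : T.X a k l b = T.X a k b l := (h91g_symm3 T a k l b)
  have e4 : T.X a k m b = T.X a k b m := (h91g_symm3 T a k m b)
  have e5 : T.X a k m l = T.X a k l m := (h91g_symm3 T a k m l)
  have e6 : T.X a l b k = T.X a l k b := (h91g_symm3 T a l b k)
  have e7 : T.X a l m b = T.X a l b m := (h91g_symm3 T a l m b)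
  have e8 : T.X a l m k = T.X a l k m := (h91g_symm3 T a l m k)
  have e9 : T.X a m b k = T.X a m k b := (h91g_symm3 T a m b k)
  have e10 : T.X a m l b = T.X a m b l := (h91g_symm3 T a m l b)
  have e11 : T.X a m l k = T.X a m k l := (h91g_symm3 T a m l k)
  have e12 : T.X b m a k = T.X a k b m := (T.symm2 b m a k)
  have e13 : T.X b m a l = T.X a l b m := (T.symm2 b m a l)
  have e14 : T.X b m l k = T.X k l b m := ((h91g_symm3 T b m l k).trans (T.symm2 b m k l))
  have e15 : T.X k a b l = T.X a k b l := (T.symm1 k a b l)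
  have e16 : T.X k a b m = T.X a k b m := (T.symm1 k a b m)
  have e17 : T.X k a l m = T.X a k l m := (T.symm1 k a l m)
  have e18 : T.X k b m l = T.X k b l m := (h91g_symm3 T k b m l)
  have e19 : T.X k l m b = T.X k l b m := (h91g_symm3 T k l m b)
  have e20 : T.X k m l b = T.X k m b l := (h91g_symm3 T k m l b)
  have e21 : T.X l a b m = T.X a l b m := (T.symm1 l a b m)
  have e22 : T.X l a k b = T.X a l k b := (T.symm1 l a k b)
  have e23 : T.X l a k m = T.X a l k m := (T.symm1 l a k m)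
  have e24 : T.X l a m k = T.X a l k m := ((T.symm1 l a m k).trans (h91g_symm3 T a l m k))
  have e25 : T.X l b k m = T.X k m b l := ((T.symm1 l b k m).trans (T.symm2 b l k m))
  have e26 : T.X l k b m = T.X k l b m := (T.symm1 l k b m)
  have e27 : T.X l m a k = T.X a k l m := (T.symm2 l m a k)
  have e28 : T.X l m b a = T.X a b l m := ((h91g_symm3 T l m b a).trans (T.symm2 l m a b))
  have e29 : T.X l m k b = T.X k b l m := (T.symm2 l m k b)
  have e30 : T.X m k b a = T.X a b k m := (((T.symm1 m k b a).trans (h91g_symm3 T k m b a)).trans (T.symm2 k m a b))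
  simp only [altX, crTX] at g1 g2 g3 g4 g5 g6 g7 g8 g9 g10 g11 g12 g13 g14 g15 g16 g17 g18 g19 g20 g21 g22 g23 g24
  simp only [e0, e1, e2, e3, e4, e5, e6, e7, e8, e9, e10, e11, e12, e13, e14, e15, e16, e17, e18, e19, e20, e21, e22, e23, e24, e25, e26, e27, e28, e29, e30] at g1 g2 g3 g4 g5 g6 g7 g8 g9 g10 g11 g12 g13 g14 g15 g16 g17 g18 g19 g20 g21 g22 g23 g24 ⊢
  exact brute_b1 _ _ _ g1 g2 g3 g4 g5 _ _ _ g6 g7 g8 g9 g10 _ _ _ g11 g12 g13 g14 _ _ _ g15 g16 g17 _ _ _ g18 g19 g20 g21 g22 g23 g24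

set_option synthInstance.maxSize 100000 in
private theorem brute_a1 :
    ∀ x0 x1 x2 : Bool,
    x0 = false →
    x1 = true →
    (x0 = true → x1 = false) →
    (x0 = true → x2 = false) →
    (x1 = true → x2 = false) →
    ∀ x3 x4 x5 : Bool,
    x3 = false →
    (x3 = true → x4 = false) →
    (x3 = true → x5 = false) →
    (x4 = true → x5 = false) →
    ∀ x6 x7 x8 : Bool,
    x6 = false →
    (x6 = true → x7 = false) →
    (x6 = true → x8 = false) →
    (x7 = true → x8 = false) →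
    ∀ x9 x10 x11 : Bool,
    x10 = true →
    (x9 = true → x10 = false) →
    (x9 = true → x11 = false) →
    (x10 = true → x11 = false) →
    ∀ x12 x13 x14 : Bool,
    (x12 = true → x13 = false) →
    (x12 = true → x14 = false) →
    (x13 = true → x14 = false) →
    ((((x1 ^^ x8) ^^ x10) ^^ x3) ^^ x13) = true →
    ((((((x6 ^^ x9) ^^ x2) ^^ x5) ^^ x12) && !((((x3 ^^ x10) ^^ x1) ^^ x8) ^^ x13) && !((((x0 ^^ x11) ^^ x4) ^^ x7) ^^ x14)) || (!((((x6 ^^ x9) ^^ x2) ^^ x5) ^^ x12) && ((((x3 ^^ x10) ^^ x1) ^^ x8) ^^ x13) && !((((x0 ^^ x11) ^^ x4) ^^ x7) ^^ x14)) || (!((((x6 ^^ x9) ^^ x2) ^^ x5) ^^ x12) && !((((x3 ^^ x10) ^^ x1) ^^ x8) ^^ x13) && ((((x0 ^^ x11) ^^ x4) ^^ x7) ^^ x14))) = true →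
    ((((((x10 ^^ x13) ^^ x0) ^^ x6) ^^ x3) && !((((x7 ^^ x14) ^^ x1) ^^ x9) ^^ x4) && !((((x2 ^^ x12) ^^ x8) ^^ x11) ^^ x5)) || (!((((x10 ^^ x13) ^^ x0) ^^ x6) ^^ x3) && ((((x7 ^^ x14) ^^ x1) ^^ x9) ^^ x4) && !((((x2 ^^ x12) ^^ x8) ^^ x11) ^^ x5)) || (!((((x10 ^^ x13) ^^ x0) ^^ x6) ^^ x3) && !((((x7 ^^ x14) ^^ x1) ^^ x9) ^^ x4) && ((((x2 ^^ x12) ^^ x8) ^^ x11) ^^ x5))) = true →
    x13 = true := by
  decide +kernel

theorem a1 {a k b l m : V} (hnd : [a, k, b, l, m].Nodup)
    (s0 : T.X a k b l = false)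
    (s1 : T.X a k b m = false)
    (s2 : T.X a k l m = false)
    (h0 : T.X a b k l = true)
    (h1 : T.X a l b m = true)
    (r0 : altX T.X a b m l k = true) :
    T.X k l b m = true := by
  have hnd' := hnd
  simp only [List.nodup_cons, List.mem_cons, List.not_mem_nil, not_or, or_false,
    List.nodup_nil, and_true, not_false_eq_true] at hnd'
  obtain ⟨⟨nak, nab, nal, nam⟩, ⟨nkb, nkl, nkm⟩, ⟨nbl, nbm⟩, nlm⟩ := hnd'
  have nka := Ne.symm nak
  have nba := Ne.symm nab
  have nla := Ne.symm nal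
  have nma := Ne.symm nam
  have nbk := Ne.symm nkb
  have nlk := Ne.symm nkl
  have nmk := Ne.symm nkm
  have nlb := Ne.symm nbl
  have nmb := Ne.symm nbm
  have nml := Ne.symm nlm
  have g1 := s0
  have g2 := h0
  have g3 := T.one a k b l
  have g4 := T.one a k l b
  have g5 := T.one a b l k
  have g6 := s1
  have g7 := T.one a k b m
  have g8 := T.one a k m b
  have g9 := T.one a b m k
  have g10 := s2
  have g11 := T.one a k l m
  have g12 := T.one a k m l
  have g13 := T.one a l m k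
  have g14 := h1
  have g15 := T.one a b l m
  have g16 := T.one a b m l
  have g17 := T.one a l m b
  have g18 := T.one k b l m
  have g19 := T.one k b m l
  have g20 := T.one k l m b
  have g21 := r0
  have g22 := h91g_rot1 T (u := a) (a := k) (b := b) (c := l) (d := m) (by simp [*])
  have g23 := h91g_rot1 T (u := l) (a := a) (b := k) (c := b) (d := m) (by simp [*])
  have e0 : T.X a b l k = T.X a b k l := (h91g_symm3 T a b l k)
  have e1 : T.X a b m k = T.X a b k m := (h91g_symm3 T a b m k)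
  have e2 : T.X a b m l = T.X a b l m := (h91g_symm3 T a b m l)
  have e3 : T.X a k l b = T.X a k b l := (h91g_symm3 T a k l b)
  have e4 : T.X a k m b = T.X a k b m := (h91g_symm3 T a k m b)
  have e5 : T.X a k m l = T.X a k l m := (h91g_symm3 T a k m l)
  have e6 : T.X a l b k = T.X a l k b := (h91g_symm3 T a l b k)
  have e7 : T.X a l m b = T.X a l b m := (h91g_symm3 T a l m b)
  have e8 : T.X a l m k = T.X a l k m := (h91g_symm3 T a l m k)
  have e9 : T.X a m b k = T.X a m k b := (h91g_symm3 T a m b k)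
  have e10 : T.X a m l b = T.X a m b l := (h91g_symm3 T a m l b)
  have e11 : T.X a m l k = T.X a m k l := (h91g_symm3 T a m l k)
  have e12 : T.X b m a k = T.X a k b m := (T.symm2 b m a k)
  have e13 : T.X b m a l = T.X a l b m := (T.symm2 b m a l)
  have e14 : T.X b m l k = T.X k l b m := ((h91g_symm3 T b m l k).trans (T.symm2 b m k l))
  have e15 : T.X k b a l = T.X a l k b := (T.symm2 k b a l)
  have e16 : T.X k b a m = T.X a m k b := (T.symm2 k b a m)
  have e17 : T.X k b m l = T.X k b l m := (h91g_symm3 T k b m l)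
  have e18 : T.X k l a b = T.X a b k l := (T.symm2 k l a b)
  have e19 : T.X k l a m = T.X a m k l := (T.symm2 k l a m)
  have e20 : T.X k l m b = T.X k l b m := (h91g_symm3 T k l m b)
  have e21 : T.X k m a b = T.X a b k m := (T.symm2 k m a b)
  have e22 : T.X k m a l = T.X a l k m := (T.symm2 k m a l)
  have e23 : T.X k m l b = T.X k m b l := (h91g_symm3 T k m l b)
  have e24 : T.X l a b m = T.X a l b m := (T.symm1 l a b m)
  have e25 : T.X l a k b = T.X a l k b := (T.symm1 l a k b)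
  have e26 : T.X l a k m = T.X a l k m := (T.symm1 l a k m)
  have e27 : T.X l b k m = T.X k m b l := ((T.symm1 l b k m).trans (T.symm2 b l k m))
  have e28 : T.X l k b m = T.X k l b m := (T.symm1 l k b m)
  have e29 : T.X l m k b = T.X k b l m := (T.symm2 l m k b)
  simp only [altX, crTX] at g1 g2 g3 g4 g5 g6 g7 g8 g9 g10 g11 g12 g13 g14 g15 g16 g17 g18 g19 g20 g21 g22 g23
  simp only [e0, e1, e2, e3, e4, e5, e6, e7, e8, e9, e10, e11, e12, e13, e14, e15, e16, e17, e18, e19, e20, e21, e22, e23, e24, e25, e26, e27, e28, e29] at g1 g2 g3 g4 g5 g6 g7 g8 g9 g10 g11 g12 g13 g14 g15 g16 g17 g18 g19 g20 g21 g22 g23 ⊢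
  exact brute_a1 _ _ _ g1 g2 g3 g4 g5 _ _ _ g6 g7 g8 g9 _ _ _ g10 g11 g12 g13 _ _ _ g14 g15 g16 g17 _ _ _ g18 g19 g20 g21 g22 g23

set_option synthInstance.maxSize 100000 in
private theorem brute_c1 :
    ∀ x0 x1 x2 : Bool,
    x0 = false →
    (x0 = true → x1 = false) →
    (x0 = true → x2 = false) →
    (x1 = true → x2 = false) →
    ∀ x3 x4 x5 : Bool,
    x3 = false →
    (x3 = true → x4 = false) →
    (x3 = true → x5 = false) →
    (x4 = true → x5 = false) →
    ∀ x6 x7 x8 : Bool,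
    x6 = false →
    (x6 = true → x7 = false) →
    (x6 = true → x8 = false) →
    (x7 = true → x8 = false) →
    ∀ x9 x10 x11 : Bool,
    x10 = true →
    (x9 = true → x10 = false) →
    (x9 = true → x11 = false) →
    (x10 = true → x11 = false) →
    ∀ x12 x13 x14 : Bool,
    x14 = true →
    (x12 = true → x13 = false) →
    (x12 = true → x14 = false) →
    (x13 = true → x14 = false) →
    ((((((x6 ^^ x12) ^^ x1) ^^ x4) ^^ x9) && !((((x3 ^^ x13) ^^ x2) ^^ x7) ^^ x10) && !((((x0 ^^ x14) ^^ x5) ^^ x8) ^^ x11)) || (!((((x6 ^^ x12) ^^ x1) ^^ x4) ^^ x9) && ((((x3 ^^ x13) ^^ x2) ^^ x7) ^^ x10) && !((((x0 ^^ x14) ^^ x5) ^^ x8) ^^ x11)) || (!((((x6 ^^ x12) ^^ x1) ^^ x4) ^^ x9) && !((((x3 ^^ x13) ^^ x2) ^^ x7) ^^ x10) && ((((x0 ^^ x14) ^^ x5) ^^ x8) ^^ x11))) = true →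
    ((((((x10 ^^ x13) ^^ x0) ^^ x6) ^^ x3) && !((((x7 ^^ x14) ^^ x1) ^^ x9) ^^ x4) && !((((x2 ^^ x12) ^^ x8) ^^ x11) ^^ x5)) || (!((((x10 ^^ x13) ^^ x0) ^^ x6) ^^ x3) && ((((x7 ^^ x14) ^^ x1) ^^ x9) ^^ x4) && !((((x2 ^^ x12) ^^ x8) ^^ x11) ^^ x5)) || (!((((x10 ^^ x13) ^^ x0) ^^ x6) ^^ x3) && !((((x7 ^^ x14) ^^ x1) ^^ x9) ^^ x4) && ((((x2 ^^ x12) ^^ x8) ^^ x11) ^^ x5))) = true →
    (x1 = false → x7 = false → ((x3 ^^ x13) ^^ x10) = true → x4 = false) →
    x7 = true := by
  decide +kernel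

theorem c1 {k q b l m : V} (hnd : [k, q, b, l, m].Nodup)
    (s0 : T.X k q b l = false)
    (s1 : T.X k q b m = false)
    (s2 : T.X k q l m = false)
    (h0 : T.X k l b m = true)
    (h1 : T.X q m b l = true) :
    T.X k l q m = true := by
  have hnd' := hnd
  simp only [List.nodup_cons, List.mem_cons, List.not_mem_nil, not_or, or_false,
    List.nodup_nil, and_true, not_false_eq_true] at hnd'
  obtain ⟨⟨nkq, nkb, nkl, nkm⟩, ⟨nqb, nql, nqm⟩, ⟨nbl, nbm⟩, nlm⟩ := hnd'
  have nqk := Ne.symm nkq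
  have nbk := Ne.symm nkb
  have nlk := Ne.symm nkl
  have nmk := Ne.symm nkm
  have nbq := Ne.symm nqb
  have nlq := Ne.symm nql
  have nmq := Ne.symm nqm
  have nlb := Ne.symm nbl
  have nmb := Ne.symm nbm
  have nml := Ne.symm nlm
  have g1 := s0
  have g2 := T.one k q b l
  have g3 := T.one k q l b
  have g4 := T.one k b l q
  have g5 := s1
  have g6 := T.one k q b m
  have g7 := T.one k q m b
  have g8 := T.one k b m q
  have g9 := s2
  have g10 := T.one k q l m
  have g11 := T.one k q m l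
  have g12 := T.one k l m q
  have g13 := h0
  have g14 := T.one k b l m
  have g15 := T.one k b m l
  have g16 := T.one k l m b
  have g17 := h1
  have g18 := T.one q b l m
  have g19 := T.one q b m l
  have g20 := T.one q l m b
  have g21 := h91g_rot1 T (u := q) (a := k) (b := b) (c := l) (d := m) (by simp [*])
  have g22 := h91g_rot1 T (u := l) (a := k) (b := q) (c := b) (d := m) (by simp [*])
  have g23 := h91g_sep5 T (a := k) (b := q) (c := l) (x := b) (y := m) (by simp [*])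
  have e0 : T.X b k m q = T.X k b q m := ((T.symm1 b k m q).trans (h91g_symm3 T k b m q))
  have e1 : T.X b k q l = T.X k b q l := (T.symm1 b k q l)
  have e2 : T.X b m k q = T.X k q b m := (T.symm2 b m k q)
  have e3 : T.X b m l k = T.X k l b m := ((h91g_symm3 T b m l k).trans (T.symm2 b m k l))
  have e4 : T.X b m q l = T.X q l b m := (T.symm2 b m q l)
  have e5 : T.X k b l q = T.X k b q l := (h91g_symm3 T k b l q)
  have e6 : T.X k b m l = T.X k b l m := (h91g_symm3 T k b m l)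
  have e7 : T.X k b m q = T.X k b q m := (h91g_symm3 T k b m q)
  have e8 : T.X k l b q = T.X k l q b := (h91g_symm3 T k l b q)
  have e9 : T.X k l m b = T.X k l b m := (h91g_symm3 T k l m b)
  have e10 : T.X k l m q = T.X k l q m := (h91g_symm3 T k l m q)
  have e11 : T.X k m b q = T.X k m q b := (h91g_symm3 T k m b q)
  have e12 : T.X k m l b = T.X k m b l := (h91g_symm3 T k m l b)
  have e13 : T.X k m l q = T.X k m q l := (h91g_symm3 T k m l q)
  have e14 : T.X k q l b = T.X k q b l := (h91g_symm3 T k q l b)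
  have e15 : T.X k q m b = T.X k q b m := (h91g_symm3 T k q m b)
  have e16 : T.X k q m l = T.X k q l m := (h91g_symm3 T k q m l)
  have e17 : T.X l b q m = T.X q m b l := ((T.symm1 l b q m).trans (T.symm2 b l q m))
  have e18 : T.X l k b m = T.X k l b m := (T.symm1 l k b m)
  have e19 : T.X l k q b = T.X k l q b := (T.symm1 l k q b)
  have e20 : T.X l k q m = T.X k l q m := (T.symm1 l k q m)
  have e21 : T.X l m q b = T.X q b l m := (T.symm2 l m q b)
  have e22 : T.X l q b m = T.X q l b m := (T.symm1 l q b m)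
  have e23 : T.X m q l k = T.X k l q m := (((T.symm1 m q l k).trans (h91g_symm3 T q m l k)).trans (T.symm2 q m k l))
  have e24 : T.X q b m l = T.X q b l m := (h91g_symm3 T q b m l)
  have e25 : T.X q k b l = T.X k q b l := (T.symm1 q k b l)
  have e26 : T.X q k b m = T.X k q b m := (T.symm1 q k b m)
  have e27 : T.X q k l m = T.X k q l m := (T.symm1 q k l m)
  have e28 : T.X q l m b = T.X q l b m := (h91g_symm3 T q l m b)
  have e29 : T.X q m l b = T.X q m b l := (h91g_symm3 T q m l b)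
  simp only [altX, crTX] at g1 g2 g3 g4 g5 g6 g7 g8 g9 g10 g11 g12 g13 g14 g15 g16 g17 g18 g19 g20 g21 g22 g23
  simp only [e0, e1, e2, e3, e4, e5, e6, e7, e8, e9, e10, e11, e12, e13, e14, e15, e16, e17, e18, e19, e20, e21, e22, e23, e24, e25, e26, e27, e28, e29] at g1 g2 g3 g4 g5 g6 g7 g8 g9 g10 g11 g12 g13 g14 g15 g16 g17 g18 g19 g20 g21 g22 g23 ⊢
  exact brute_c1 _ _ _ g1 g2 g3 g4 _ _ _ g5 g6 g7 g8 _ _ _ g9 g10 g11 g12 _ _ _ g13 g14 g15 g16 _ _ _ g17 g18 g19 g20 g21 g22 g23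

set_option synthInstance.maxSize 100000 in
private theorem brute_a2 :
    ∀ x0 x1 x2 : Bool,
    x0 = false →
    x1 = true →
    (x0 = true → x1 = false) →
    (x0 = true → x2 = false) →
    (x1 = true → x2 = false) →
    ∀ x6 x7 x8 : Bool,
    x6 = false →
    x8 = false →
    (x6 = true → x7 = false) →
    (x6 = true → x8 = false) →
    (x7 = true → x8 = false) →
    ∀ x3 x4 x5 : Bool,
    x3 = false →
    (x3 = true → x4 = false) →
    (x3 = true → x5 = false) →
    (x4 = true → x5 = false) →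
    ∀ x9 x10 x11 : Bool,
    (x9 = true → x10 = false) →
    (x9 = true → x11 = false) →
    (x10 = true → x11 = false) →
    ∀ x12 x13 x14 : Bool,
    (x12 = true → x13 = false) →
    (x12 = true → x14 = false) →
    (x13 = true → x14 = false) →
    ((((x5 ^^ x2) ^^ x9) ^^ x6) ^^ x12) = true →
    ((((((x6 ^^ x9) ^^ x2) ^^ x5) ^^ x12) && !((((x3 ^^ x10) ^^ x1) ^^ x8) ^^ x13) && !((((x0 ^^ x11) ^^ x4) ^^ x7) ^^ x14)) || (!((((x6 ^^ x9) ^^ x2) ^^ x5) ^^ x12) && ((((x3 ^^ x10) ^^ x1) ^^ x8) ^^ x13) && !((((x0 ^^ x11) ^^ x4) ^^ x7) ^^ x14)) || (!((((x6 ^^ x9) ^^ x2) ^^ x5) ^^ x12) && !((((x3 ^^ x10) ^^ x1) ^^ x8) ^^ x13) && ((((x0 ^^ x11) ^^ x4) ^^ x7) ^^ x14))) = true →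
    ((((((x9 ^^ x12) ^^ x0) ^^ x3) ^^ x6) && !((((x4 ^^ x14) ^^ x2) ^^ x10) ^^ x7) && !((((x1 ^^ x13) ^^ x5) ^^ x11) ^^ x8)) || (!((((x9 ^^ x12) ^^ x0) ^^ x3) ^^ x6) && ((((x4 ^^ x14) ^^ x2) ^^ x10) ^^ x7) && !((((x1 ^^ x13) ^^ x5) ^^ x11) ^^ x8)) || (!((((x9 ^^ x12) ^^ x0) ^^ x3) ^^ x6) && !((((x4 ^^ x14) ^^ x2) ^^ x10) ^^ x7) && ((((x1 ^^ x13) ^^ x5) ^^ x11) ^^ x8))) = true →
    (x8 = false → x2 = false → ((x3 ^^ x13) ^^ x10) = true → x5 = false) →
    x9 = true := by
  decide +kernel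

theorem a2 {a k b l m : V} (hnd : [a, k, b, l, m].Nodup)
    (s0 : T.X a k b l = false)
    (s1 : T.X a k b m = false)
    (s2 : T.X a k l m = false)
    (h0 : T.X a b k l = true)
    (h1 : T.X a m k l = false)
    (r0 : altX T.X a m l b k = true) :
    T.X a b l m = true := by
  have hnd' := hnd
  simp only [List.nodup_cons, List.mem_cons, List.not_mem_nil, not_or, or_false,
    List.nodup_nil, and_true, not_false_eq_true] at hnd'
  obtain ⟨⟨nak, nab, nal, nam⟩, ⟨nkb, nkl, nkm⟩, ⟨nbl, nbm⟩, nlm⟩ := hnd'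
  have nka := Ne.symm nak
  have nba := Ne.symm nab
  have nla := Ne.symm nal
  have nma := Ne.symm nam
  have nbk := Ne.symm nkb
  have nlk := Ne.symm nkl
  have nmk := Ne.symm nkm
  have nlb := Ne.symm nbl
  have nmb := Ne.symm nbm
  have nml := Ne.symm nlm
  have g1 := s0
  have g2 := h0
  have g3 := T.one a k b l
  have g4 := T.one a k l b
  have g5 := T.one a b l k
  have g6 := s2
  have g7 := h1
  have g8 := T.one a k l m
  have g9 := T.one a k m l
  have g10 := T.one a l m k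
  have g11 := s1
  have g12 := T.one a k b m
  have g13 := T.one a k m b
  have g14 := T.one a b m k
  have g15 := T.one a b l m
  have g16 := T.one a b m l
  have g17 := T.one a l m b
  have g18 := T.one k b l m
  have g19 := T.one k b m l
  have g20 := T.one k l m b
  have g21 := r0
  have g22 := h91g_rot1 T (u := a) (a := k) (b := b) (c := l) (d := m) (by simp [*])
  have g23 := h91g_rot1 T (u := b) (a := a) (b := k) (c := l) (d := m) (by simp [*])
  have g24 := h91g_sep5 T (a := a) (b := k) (c := l) (x := m) (y := b) (by simp [*])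
  have e0 : T.X a b l k = T.X a b k l := (h91g_symm3 T a b l k)
  have e1 : T.X a b m k = T.X a b k m := (h91g_symm3 T a b m k)
  have e2 : T.X a b m l = T.X a b l m := (h91g_symm3 T a b m l)
  have e3 : T.X a k l b = T.X a k b l := (h91g_symm3 T a k l b)
  have e4 : T.X a k m b = T.X a k b m := (h91g_symm3 T a k m b)
  have e5 : T.X a k m l = T.X a k l m := (h91g_symm3 T a k m l)
  have e6 : T.X a l b k = T.X a l k b := (h91g_symm3 T a l b k)
  have e7 : T.X a l m b = T.X a l b m := (h91g_symm3 T a l m b)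
  have e8 : T.X a l m k = T.X a l k m := (h91g_symm3 T a l m k)
  have e9 : T.X a m b k = T.X a m k b := (h91g_symm3 T a m b k)
  have e10 : T.X a m l b = T.X a m b l := (h91g_symm3 T a m l b)
  have e11 : T.X a m l k = T.X a m k l := (h91g_symm3 T a m l k)
  have e12 : T.X b a k l = T.X a b k l := (T.symm1 b a k l)
  have e13 : T.X b a k m = T.X a b k m := (T.symm1 b a k m)
  have e14 : T.X b a l m = T.X a b l m := (T.symm1 b a l m)
  have e15 : T.X b k l a = T.X a l k b := (((T.symm1 b k l a).trans (h91g_symm3 T k b l a)).trans (T.symm2 k b a l))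
  have e16 : T.X b k l m = T.X k b l m := (T.symm1 b k l m)
  have e17 : T.X b l k m = T.X k m b l := (T.symm2 b l k m)
  have e18 : T.X b m k l = T.X k l b m := (T.symm2 b m k l)
  have e19 : T.X k b a l = T.X a l k b := (T.symm2 k b a l)
  have e20 : T.X k b a m = T.X a m k b := (T.symm2 k b a m)
  have e21 : T.X k b m l = T.X k b l m := (h91g_symm3 T k b m l)
  have e22 : T.X k l a b = T.X a b k l := (T.symm2 k l a b)
  have e23 : T.X k l a m = T.X a m k l := (T.symm2 k l a m)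
  have e24 : T.X k l m b = T.X k l b m := (h91g_symm3 T k l m b)
  have e25 : T.X k m a b = T.X a b k m := (T.symm2 k m a b)
  have e26 : T.X k m a l = T.X a l k m := (T.symm2 k m a l)
  have e27 : T.X k m l b = T.X k m b l := (h91g_symm3 T k m l b)
  have e28 : T.X m a b k = T.X a m k b := ((T.symm1 m a b k).trans (h91g_symm3 T a m b k))
  have e29 : T.X m a k l = T.X a m k l := (T.symm1 m a k l)
  have e30 : T.X m b a k = T.X a k b m := ((T.symm1 m b a k).trans (T.symm2 b m a k))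
  have e31 : T.X m b k l = T.X k l b m := ((T.symm1 m b k l).trans (T.symm2 b m k l))
  have e32 : T.X m b l a = T.X a l b m := (((T.symm1 m b l a).trans (h91g_symm3 T b m l a)).trans (T.symm2 b m a l))
  have e33 : T.X m l a b = T.X a b l m := ((T.symm1 m l a b).trans (T.symm2 l m a b))
  have e34 : T.X m l a k = T.X a k l m := ((T.symm1 m l a k).trans (T.symm2 l m a k))
  have e35 : T.X m l b k = T.X k b l m := (((T.symm1 m l b k).trans (h91g_symm3 T l m b k)).trans (T.symm2 l m k b))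
  simp only [altX, crTX] at g1 g2 g3 g4 g5 g6 g7 g8 g9 g10 g11 g12 g13 g14 g15 g16 g17 g18 g19 g20 g21 g22 g23 g24
  simp only [e0, e1, e2, e3, e4, e5, e6, e7, e8, e9, e10, e11, e12, e13, e14, e15, e16, e17, e18, e19, e20, e21, e22, e23, e24, e25, e26, e27, e28, e29, e30, e31, e32, e33, e34, e35] at g1 g2 g3 g4 g5 g6 g7 g8 g9 g10 g11 g12 g13 g14 g15 g16 g17 g18 g19 g20 g21 g22 g23 g24 ⊢
  exact brute_a2 _ _ _ g1 g2 g3 g4 g5 _ _ _ g6 g7 g8 g9 g10 _ _ _ g11 g12 g13 g14 _ _ _ g15 g16 g17 _ _ _ g18 g19 g20 g21 g22 g23 g24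

set_option synthInstance.maxSize 100000 in
private theorem brute_b2 :
    ∀ x3 x4 x5 : Bool,
    x3 = false →
    x4 = false →
    (x3 = true → x4 = false) →
    (x3 = true → x5 = false) →
    (x4 = true → x5 = false) →
    ∀ x6 x7 x8 : Bool,
    x6 = false →
    x7 = true →
    (x6 = true → x7 = false) →
    (x6 = true → x8 = false) →
    (x7 = true → x8 = false) →
    ∀ x0 x1 x2 : Bool,
    x0 = false →
    (x0 = true → x1 = false) →
    (x0 = true → x2 = false) →
    (x1 = true → x2 = false) →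
    ∀ x9 x10 x11 : Bool,
    (x9 = true → x10 = false) →
    (x9 = true → x11 = false) →
    (x10 = true → x11 = false) →
    ∀ x12 x13 x14 : Bool,
    (x12 = true → x13 = false) →
    (x12 = true → x14 = false) →
    (x13 = true → x14 = false) →
    ((((x5 ^^ x2) ^^ x9) ^^ x6) ^^ x12) = true →
    ((((((x6 ^^ x12) ^^ x1) ^^ x4) ^^ x9) && !((((x3 ^^ x13) ^^ x2) ^^ x7) ^^ x10) && !((((x0 ^^ x14) ^^ x5) ^^ x8) ^^ x11)) || (!((((x6 ^^ x12) ^^ x1) ^^ x4) ^^ x9) && ((((x3 ^^ x13) ^^ x2) ^^ x7) ^^ x10) && !((((x0 ^^ x14) ^^ x5) ^^ x8) ^^ x11)) || (!((((x6 ^^ x12) ^^ x1) ^^ x4) ^^ x9) && !((((x3 ^^ x13) ^^ x2) ^^ x7) ^^ x10) && ((((x0 ^^ x14) ^^ x5) ^^ x8) ^^ x11))) = true →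
    ((((((x9 ^^ x12) ^^ x0) ^^ x3) ^^ x6) && !((((x4 ^^ x14) ^^ x2) ^^ x10) ^^ x7) && !((((x1 ^^ x13) ^^ x5) ^^ x11) ^^ x8)) || (!((((x9 ^^ x12) ^^ x0) ^^ x3) ^^ x6) && ((((x4 ^^ x14) ^^ x2) ^^ x10) ^^ x7) && !((((x1 ^^ x13) ^^ x5) ^^ x11) ^^ x8)) || (!((((x9 ^^ x12) ^^ x0) ^^ x3) ^^ x6) && !((((x4 ^^ x14) ^^ x2) ^^ x10) ^^ x7) && ((((x1 ^^ x13) ^^ x5) ^^ x11) ^^ x8))) = true →
    x9 = false := by
  decide +kernel

theorem b2 {a k b l m : V} (hnd : [a, k, b, l, m].Nodup)
    (s0 : T.X a k b l = false)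
    (s1 : T.X a k b m = false)
    (s2 : T.X a k l m = false)
    (h0 : T.X a l k m = true)
    (h1 : T.X a b k m = false)
    (r0 : altX T.X a m l b k = true) :
    T.X a b l m = false := by
  have hnd' := hnd
  simp only [List.nodup_cons, List.mem_cons, List.not_mem_nil, not_or, or_false,
    List.nodup_nil, and_true, not_false_eq_true] at hnd'
  obtain ⟨⟨nak, nab, nal, nam⟩, ⟨nkb, nkl, nkm⟩, ⟨nbl, nbm⟩, nlm⟩ := hnd'
  have nka := Ne.symm nak
  have nba := Ne.symm nab
  have nla := Ne.symm nal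
  have nma := Ne.symm nam
  have nbk := Ne.symm nkb
  have nlk := Ne.symm nkl
  have nmk := Ne.symm nkm
  have nlb := Ne.symm nbl
  have nmb := Ne.symm nbm
  have nml := Ne.symm nlm
  have g1 := s1
  have g2 := h1
  have g3 := T.one a k b m
  have g4 := T.one a k m b
  have g5 := T.one a b m k
  have g6 := s2
  have g7 := h0
  have g8 := T.one a k l m
  have g9 := T.one a k m l
  have g10 := T.one a l m k
  have g11 := s0
  have g12 := T.one a k b l
  have g13 := T.one a k l b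
  have g14 := T.one a b l k
  have g15 := T.one a b l m
  have g16 := T.one a b m l
  have g17 := T.one a l m b
  have g18 := T.one k b l m
  have g19 := T.one k b m l
  have g20 := T.one k l m b
  have g21 := r0
  have g22 := h91g_rot1 T (u := k) (a := a) (b := b) (c := l) (d := m) (by simp [*])
  have g23 := h91g_rot1 T (u := b) (a := a) (b := k) (c := l) (d := m) (by simp [*])
  have e0 : T.X a b l k = T.X a b k l := (h91g_symm3 T a b l k)
  have e1 : T.X a b m k = T.X a b k m := (h91g_symm3 T a b m k)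
  have e2 : T.X a b m l = T.X a b l m := (h91g_symm3 T a b m l)
  have e3 : T.X a k l b = T.X a k b l := (h91g_symm3 T a k l b)
  have e4 : T.X a k m b = T.X a k b m := (h91g_symm3 T a k m b)
  have e5 : T.X a k m l = T.X a k l m := (h91g_symm3 T a k m l)
  have e6 : T.X a l b k = T.X a l k b := (h91g_symm3 T a l b k)
  have e7 : T.X a l m b = T.X a l b m := (h91g_symm3 T a l m b)
  have e8 : T.X a l m k = T.X a l k m := (h91g_symm3 T a l m k)
  have e9 : T.X a m b k = T.X a m k b := (h91g_symm3 T a m b k)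
  have e10 : T.X a m l b = T.X a m b l := (h91g_symm3 T a m l b)
  have e11 : T.X a m l k = T.X a m k l := (h91g_symm3 T a m l k)
  have e12 : T.X b a k l = T.X a b k l := (T.symm1 b a k l)
  have e13 : T.X b a k m = T.X a b k m := (T.symm1 b a k m)
  have e14 : T.X b a l m = T.X a b l m := (T.symm1 b a l m)
  have e15 : T.X b k l m = T.X k b l m := (T.symm1 b k l m)
  have e16 : T.X b l k m = T.X k m b l := (T.symm2 b l k m)
  have e17 : T.X b m k l = T.X k l b m := (T.symm2 b m k l)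
  have e18 : T.X k a b l = T.X a k b l := (T.symm1 k a b l)
  have e19 : T.X k a b m = T.X a k b m := (T.symm1 k a b m)
  have e20 : T.X k a l m = T.X a k l m := (T.symm1 k a l m)
  have e21 : T.X k b m l = T.X k b l m := (h91g_symm3 T k b m l)
  have e22 : T.X k l m b = T.X k l b m := (h91g_symm3 T k l m b)
  have e23 : T.X k m l b = T.X k m b l := (h91g_symm3 T k m l b)
  have e24 : T.X m l a b = T.X a b l m := ((T.symm1 m l a b).trans (T.symm2 l m a b))
  have e25 : T.X m l a k = T.X a k l m := ((T.symm1 m l a k).trans (T.symm2 l m a k))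
  have e26 : T.X m l b k = T.X k b l m := (((T.symm1 m l b k).trans (h91g_symm3 T l m b k)).trans (T.symm2 l m k b))
  simp only [altX, crTX] at g1 g2 g3 g4 g5 g6 g7 g8 g9 g10 g11 g12 g13 g14 g15 g16 g17 g18 g19 g20 g21 g22 g23
  simp only [e0, e1, e2, e3, e4, e5, e6, e7, e8, e9, e10, e11, e12, e13, e14, e15, e16, e17, e18, e19, e20, e21, e22, e23, e24, e25, e26] at g1 g2 g3 g4 g5 g6 g7 g8 g9 g10 g11 g12 g13 g14 g15 g16 g17 g18 g19 g20 g21 g22 g23 ⊢
  exact brute_b2 _ _ _ g1 g2 g3 g4 g5 _ _ _ g6 g7 g8 g9 g10 _ _ _ g11 g12 g13 g14 _ _ _ g15 g16 g17 _ _ _ g18 g19 g20 g21 g22 g23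

end H91G
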